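import Pool.Agent.H80.Jet1

open Pool.Agent.H80.Jet

theorem Pool.Agent.Results.MP_dc74b6_ag.Triangle.result (k : Type) [Field k] :
    ∃ (n : ℕ) (C : Set (Finset (Fin n))) (s : ℕ),
      IsClutter C ∧ HasEmbedded (jetIdeal k s (edgeIdeal k C)) :=
  let ⟨s, h⟩ := emb k
  ⟨3, tri, s, tri_clutter, h⟩
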